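import Pool.Agent.Helper9.Ends.Defs

/-!
# EN-4c: the square root trick
-/

set_option autoImplicit false

open Set Filter Metric Topology
open scoped ContDiff ComplexConjugate
open Pool.Agent.Helper61.KS

namespace Pool.Agent.EN

/-- logarithms of functions without zeros (a copy of EN-3, to keep this file independent) -/
theorem exists_log' {D : Set ℂ} (hD : IsOpen D) (hc : IsPreconnected D) (hP : HasPrim D)
    {f : ℂ → ℂ} (hf : DifferentiableOn ℂ f D) (h0 : ∀ z ∈ D, f z ≠ 0) :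
    ∃ L : ℂ → ℂ, DifferentiableOn ℂ L D ∧ ∀ z ∈ D, Complex.exp (L z) = f z := by
  rcases D.eq_empty_or_nonempty with rfl | ⟨z₁, hz₁⟩
  · exact ⟨f, hf, fun z hz => absurd hz (by simp)⟩
  obtain ⟨G, hG⟩ := hP (fun z => deriv f z / f z) ((hf.deriv hD).div hf h0)
  have hF : ∀ z ∈ D, HasDerivAt (fun z => f z * Complex.exp (-G z)) 0 z := by
    intro z hz
    have h1 : HasDerivAt f (deriv f z) z := (hf.differentiableAt (hD.mem_nhds hz)).hasDerivAt
    have h2 : HasDerivAt (fun z => Complex.exp (-G z)) (Complex.exp (-G z) * -(deriv f z / f z)) z :=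
      ((hG z hz).fun_neg).cexp
    refine (h1.fun_mul h2).congr_deriv ?_
    have := h0 z hz
    field_simp
    ring
  have hconst : ∀ z ∈ D, f z * Complex.exp (-G z) = f z₁ * Complex.exp (-G z₁) := by
    intro z hz
    exact hD.is_const_of_deriv_eq_zero hc
      (fun z hz => (hF z hz).differentiableAt.differentiableWithinAt)
      (fun z hz => (hF z hz).deriv) hz hz₁
  have hne : f z₁ * Complex.exp (-G z₁) ≠ 0 := mul_ne_zero (h0 z₁ hz₁) (Complex.exp_ne_zero _)
  refine ⟨fun z => G z + Complex.log (f z₁ * Complex.exp (-G z₁)), ?_, ?_⟩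
  · exact fun z hz => ((hG z hz).differentiableAt.add_const _).differentiableWithinAt
  · intro z hz
    rw [Complex.exp_add, Complex.exp_log hne, ← hconst z hz, mul_comm, mul_assoc,
      ← Complex.exp_add]
    simp

theorem mob_ne {w x : ℂ} (hw : ‖w‖ < 1) (hx : ‖x‖ < 1) : 1 - conj w * x ≠ 0 := by
  intro h
  have h1 : ‖conj w * x‖ = 1 := by
    rw [← sub_eq_zero.1 h, norm_one]
  rw [norm_mul, RCLike.norm_conj] at h1
  have := norm_nonneg w
  have := norm_nonneg x
  nlinarith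

theorem mob_lt {w x : ℂ} (hw : ‖w‖ < 1) (hx : ‖x‖ < 1) :
    ‖(x - w) / (1 - conj w * x)‖ < 1 := by
  have hne := mob_ne hw hx
  rw [norm_div, div_lt_one (norm_pos_iff.2 hne)]
  have h1 : Complex.normSq (1 - conj w * x) - Complex.normSq (x - w) =
      (1 - Complex.normSq x) * (1 - Complex.normSq w) := by
    simp only [Complex.normSq_apply, Complex.sub_re, Complex.sub_im, Complex.mul_re,
      Complex.mul_im, Complex.one_re, Complex.one_im, Complex.conj_re, Complex.conj_im]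
    ring
  have hw2 : Complex.normSq w < 1 := by
    rw [Complex.normSq_eq_norm_sq]
    have := norm_nonneg w
    nlinarith
  have hx2 : Complex.normSq x < 1 := by
    rw [Complex.normSq_eq_norm_sq]
    have := norm_nonneg x
    nlinarith
  have h2 : 0 < (1 - Complex.normSq x) * (1 - Complex.normSq w) :=
    mul_pos (by linarith) (by linarith)
  rw [← h1, Complex.normSq_eq_norm_sq, Complex.normSq_eq_norm_sq] at h2
  exact lt_of_pow_lt_pow_left₀ 2 (norm_nonneg _) (by linarith)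

theorem mob_inj {w x y : ℂ} (hw : ‖w‖ < 1) (hx : ‖x‖ < 1) (hy : ‖y‖ < 1)
    (h : (x - w) / (1 - conj w * x) = (y - w) / (1 - conj w * y)) : x = y := by
  rw [div_eq_div_iff (mob_ne hw hx) (mob_ne hw hy)] at h
  have h1 : (x - y) * (1 - w * conj w) = 0 := by linear_combination h
  rcases mul_eq_zero.1 h1 with h2 | h2
  · exact sub_eq_zero.1 h2
  · exfalso
    rw [Complex.mul_conj, Complex.normSq_eq_norm_sq] at h2
    have h3 : ((1 - ‖w‖ ^ 2 : ℝ) : ℂ) = 0 := by
      push_cast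
      push_cast at h2
      exact h2
    have h4 : 1 - ‖w‖ ^ 2 = 0 := by exact_mod_cast h3
    have := norm_nonneg w
    nlinarith

theorem mob_differentiable {D : Set ℂ} {w : ℂ} (hw : ‖w‖ < 1) {f : ℂ → ℂ}
    (hf : DifferentiableOn ℂ f D) (hm : ∀ z ∈ D, ‖f z‖ < 1) :
    DifferentiableOn ℂ (fun z => (f z - w) / (1 - conj w * f z)) D :=
  (hf.sub_const w).div ((hf.const_mul (conj w)).const_sub 1) fun z hz => mob_ne hw (hm z hz)

/-- EN-4c: the square root trick -/
theorem koebe_step {D : Set ℂ} (hD : IsOpen D) (hc : IsPreconnected D) (hP : HasPrim D)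
    {f : ℂ → ℂ} (hf : DifferentiableOn ℂ f D) (hi : InjOn f D) (hm : MapsTo f D (ball 0 1))
    {z₀ : ℂ} (hz₀ : z₀ ∈ D) (hf0 : f z₀ = 0) (hd : deriv f z₀ ≠ 0) {w : ℂ} (hw : w ∈ ball (0 : ℂ) 1)
    (hwf : w ∉ f '' D) :
    ∃ ψ : ℂ → ℂ, DifferentiableOn ℂ ψ D ∧ InjOn ψ D ∧ MapsTo ψ D (ball 0 1) ∧ ψ z₀ = 0 ∧
      ‖deriv f z₀‖ < ‖deriv ψ z₀‖ := by
  have hw1 : ‖w‖ < 1 := by simpa using hw
  have hfm : ∀ z ∈ D, ‖f z‖ < 1 := fun z hz => by simpa using hm hz
  have hw0 : w ≠ 0 := by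
    rintro rfl
    exact hwf ⟨z₀, hz₀, hf0⟩
  set h : ℂ → ℂ := fun z => (f z - w) / (1 - conj w * f z) with hh
  have hhd : DifferentiableOn ℂ h D := mob_differentiable hw1 hf hfm
  have hh0 : ∀ z ∈ D, h z ≠ 0 := by
    intro z hz
    refine div_ne_zero ?_ (mob_ne hw1 (hfm z hz))
    intro h1
    exact hwf ⟨z, hz, sub_eq_zero.1 h1⟩
  have hh1 : ∀ z ∈ D, ‖h z‖ < 1 := fun z hz => mob_lt hw1 (hfm z hz)
  obtain ⟨L, hL, hLe⟩ := exists_log' hD hc hP hhd hh0
  set g : ℂ → ℂ := fun z => Complex.exp (L z / 2) with hg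
  have hgd : DifferentiableOn ℂ g D := (hL.div_const 2).cexp
  have hg2 : ∀ z ∈ D, g z ^ 2 = h z := by
    intro z hz
    rw [← hLe z hz, hg, ← Complex.exp_nat_mul]
    congr 1
    push_cast
    ring
  have hg1 : ∀ z ∈ D, ‖g z‖ < 1 := by
    intro z hz
    have h1 := hh1 z hz
    rw [← hg2 z hz, norm_pow] at h1
    by_contra h2
    push Not at h2
    nlinarith
  set b : ℂ := g z₀ with hb
  have hb1 : ‖b‖ < 1 := hg1 z₀ hz₀
  have hb2 : b ^ 2 = -w := by
    rw [hb, hg2 z₀ hz₀, hh]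
    simp [hf0]
  have hb0 : b ≠ 0 := by
    intro h1
    rw [h1] at hb2
    apply hw0
    have : w = -(0 : ℂ) ^ 2 := by rw [hb2]; ring
    rw [this]; simp
  have hbw : ‖b‖ ^ 2 = ‖w‖ := by rw [← norm_pow, hb2, norm_neg]
  refine ⟨fun z => (g z - b) / (1 - conj b * g z), mob_differentiable hb1 hgd hg1, ?_, ?_, ?_, ?_⟩
  · intro z hz z' hz' he
    have h1 : g z = g z' := mob_inj hb1 (hg1 z hz) (hg1 z' hz') he
    have h2 : h z = h z' := by rw [← hg2 z hz, ← hg2 z' hz', h1]
    exact hi hz hz' (mob_inj hw1 (hfm z hz) (hfm z' hz') h2)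
  · intro z hz
    simpa using mob_lt hb1 (hg1 z hz)
  · simp [hb]
  · -- derivatives
    have hnb : D ∈ 𝓝 z₀ := hD.mem_nhds hz₀
    have hf' : HasDerivAt f (deriv f z₀) z₀ := (hf.differentiableAt hnb).hasDerivAt
    have hg' : HasDerivAt g (deriv g z₀) z₀ := (hgd.differentiableAt hnb).hasDerivAt
    have hh' : HasDerivAt h ((1 - w * conj w) * deriv f z₀) z₀ := by
      have h1 : HasDerivAt (fun z => f z - w) (deriv f z₀) z₀ := hf'.sub_const w
      have h2 : HasDerivAt (fun z => 1 - conj w * f z) (-(conj w * deriv f z₀)) z₀ := by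
        have := (hf'.const_mul (conj w)).const_sub 1
        simpa using this
      have h3 : HasDerivAt h _ z₀ := h1.fun_div h2 (mob_ne hw1 (hfm z₀ hz₀))
      refine h3.congr_deriv ?_
      rw [hf0]
      simp only [mul_zero, sub_zero, mul_one, zero_sub, one_pow, div_one]
      ring
    have hgg : HasDerivAt (fun z => g z ^ 2) (2 * b * deriv g z₀) z₀ := by
      have h1 : HasDerivAt (fun z => g z ^ 2) ((2 : ℕ) * g z₀ ^ (2 - 1) * deriv g z₀) z₀ :=
        hg'.fun_pow 2
      refine h1.congr_deriv ?_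
      rw [hb]
      norm_num
    have heq : 2 * b * deriv g z₀ = (1 - w * conj w) * deriv f z₀ := by
      refine hgg.unique (hh'.congr_of_eventuallyEq ?_)
      filter_upwards [hnb] with z hz using hg2 z hz
    have hψ : HasDerivAt (fun z => (g z - b) / (1 - conj b * g z))
        (deriv g z₀ / (1 - conj b * b)) z₀ := by
      have h1 : HasDerivAt (fun z => g z - b) (deriv g z₀) z₀ := hg'.sub_const b
      have h2 : HasDerivAt (fun z => 1 - conj b * g z) (-(conj b * deriv g z₀)) z₀ := by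
        have := (hg'.const_mul (conj b)).const_sub 1
        simpa using this
      have hne := mob_ne hb1 (hg1 z₀ hz₀)
      have h3 := h1.fun_div h2 hne
      refine h3.congr_deriv ?_
      rw [← hb]
      rw [← hb] at hne
      field_simp
      ring
    rw [hψ.deriv, norm_div]
    have e1 : ‖1 - conj b * b‖ = 1 - ‖w‖ := by
      rw [mul_comm, Complex.mul_conj, Complex.normSq_eq_norm_sq, hbw, ← Complex.ofReal_one,
        ← Complex.ofReal_sub, Complex.norm_real, Real.norm_of_nonneg (by linarith)]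
    have e2 : ‖1 - w * conj w‖ = 1 - ‖w‖ ^ 2 := by
      rw [Complex.mul_conj, Complex.normSq_eq_norm_sq, ← Complex.ofReal_one,
        ← Complex.ofReal_sub, Complex.norm_real, Real.norm_of_nonneg]
      have := norm_nonneg w
      nlinarith
    have e3 : 2 * ‖b‖ * ‖deriv g z₀‖ = (1 - ‖w‖ ^ 2) * ‖deriv f z₀‖ := by
      rw [← e2, ← norm_mul, ← heq, norm_mul, norm_mul]
      simp
    have hbp : 0 < ‖b‖ := norm_pos_iff.2 hb0
    have hfp : 0 < ‖deriv f z₀‖ := norm_pos_iff.2 hd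
    have hw' : 0 < 1 - ‖w‖ := by linarith
    rw [e1, lt_div_iff₀ hw']
    have e4 : 2 * ‖b‖ * (‖deriv f z₀‖ * (1 - ‖w‖)) < 2 * ‖b‖ * ‖deriv g z₀‖ := by
      rw [e3]
      have e5 : 0 < (1 - ‖b‖) ^ 2 := by
        have : 0 < 1 - ‖b‖ := by linarith
        positivity
      have e6 : 2 * ‖b‖ < 1 + ‖w‖ := by rw [← hbw]; nlinarith
      have e7 : 0 < ‖deriv f z₀‖ * (1 - ‖w‖) := mul_pos hfp hw'
      nlinarith
    exact lt_of_mul_lt_mul_left e4 (by positivity)

end Pool.Agent.EN
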